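import Pool.Agent.KingTri.UpTable
import Pool.Agent.KingTri.LoTable

/-!
Rigorous two-sided bounds for the entropy constant of non-attacking kings on the triangular board.
-/

namespace Pool.Agent.Results.MP_3ad282_co.KingBounds

open Filter Topology KingTri

theorem result : ∃ κ : ℝ,
    Tendsto (fun n : ℕ => (kings n : ℝ) ^ (1 / (2 * (n : ℝ) ^ 2))) atTop (𝓝 κ) ∧
      1.2702405 < κ ∧ κ < 1.2702435 := by
  obtain ⟨L, hL⟩ := exists_limit
  have hU := super_of_chk (by norm_num) allUpTable
  have hD := sub_of_chk (by norm_num) allLoTable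
  have hup : L ≤ Real.log (((16135184813 : ℕ) : ℝ) / ((10000000000 : ℕ) : ℝ)) :=
    entropy_le (w := 8) (by norm_num) (by norm_num) (by norm_num : (1 : ℝ) ≤ ((4294967296 : ℕ) : ℝ))
      hU.1 (fun s _ => ent_le (by norm_num) _ _) hU.2.1
      (fun b a _ _ => ent_le (by norm_num) _ _) hU.2.2 hL
  have hlo : Real.log (((16135109584 : ℕ) : ℝ) / ((10000000000 : ℕ) : ℝ)) ≤ L :=
    le_entropy (w := 8) (by norm_num) (by norm_num) (by norm_num : (1 : ℝ) ≤ ((4294967296 : ℕ) : ℝ))
      hD.1 (fun s _ => ent_le (by norm_num) _ _) hD.2.1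
      (fun b a _ _ => ent_le (by norm_num) _ _) hD.2.2 hL
  refine ⟨Real.exp (L / 2), ?_, ?_, ?_⟩
  · have h1 : Tendsto (fun n : ℕ => Real.exp ((Real.log (kings n) / (n : ℝ) ^ 2) / 2)) atTop
        (𝓝 (Real.exp (L / 2))) :=
      (Real.continuous_exp.tendsto _).comp (hL.div_const 2)
    refine h1.congr fun n => ?_
    have h2 : (0 : ℝ) < kings n := by exact_mod_cast one_le_kings n
    rw [Real.rpow_def_of_pos h2]
    congr 1
    rw [div_div, mul_one_div, mul_comm ((n : ℝ) ^ 2) 2]
  · have h3 : Real.log 1.2702405 < L / 2 := by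
      have h4 : Real.log 1.2702405 * 2 < Real.log
          (((16135109584 : ℕ) : ℝ) / ((10000000000 : ℕ) : ℝ)) := by
        have : Real.log 1.2702405 * 2 = Real.log (1.2702405 ^ 2) := by
          rw [Real.log_pow]
          push_cast
          ring
        rw [this]
        exact Real.log_lt_log (by norm_num) (by norm_num)
      linarith
    rw [← Real.log_lt_iff_lt_exp (by norm_num)]
    exact h3
  · have h3 : L / 2 < Real.log 1.2702435 := by
      have h4 : Real.log (((16135184813 : ℕ) : ℝ) / ((10000000000 : ℕ) : ℝ)) <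
          Real.log 1.2702435 * 2 := by
        have : Real.log 1.2702435 * 2 = Real.log (1.2702435 ^ 2) := by
          rw [Real.log_pow]
          push_cast
          ring
        rw [this]
        exact Real.log_lt_log (by norm_num) (by norm_num)
      linarith
    rw [← Real.lt_log_iff_exp_lt (by norm_num)]
    exact h3

end Pool.Agent.Results.MP_3ad282_co.KingBounds
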